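import Pool.Agent.Helper79.GT.St6
import Pool.Agent.Helper79.GS.Lib

/-!
# Project GT (MP_c2d095_lc): module EVW, the functions of the word are E2
-/

set_option autoImplicit false

namespace Pool.Agent.Helper94.GT

open Pool.Agent.Helper79.GT Pool.Agent.Helper79.GS Pool.Agent.Helper19.SK
open Pool.Agent.Helper73.DC Finset

private theorem e_ite' {α : Type} [Fintype α] {p : List α → (ℕ → ℕ) → Prop}
    [∀ w v, Decidable (p w v)] {F G : VF α} (hp : E2P p) (hF : E2 F) (hG : E2 G) :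
    E2 (fun w v => if p w v then F w v else G w v) := by
  have h := e_ite hp hF hG
  have e : (fun w v => if p w v then F w v else G w v) =
      fun w v => @ite ℕ (p w v) (Classical.propDecidable _) (F w v) (G w v) := by
    funext w v
    by_cases hpv : p w v
    · rw [if_pos hpv, if_pos hpv]
    · rw [if_neg hpv, if_neg hpv]
  rw [e]
  exact h

private theorem e_cimp (b : Bool) {p : List (Fin 5) → (ℕ → ℕ) → Prop} (hp : E2P p) :
    E2P (fun w v => b = true → p w v) := by
  cases b with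
  | false =>
    have e : (fun (w : List (Fin 5)) (v : ℕ → ℕ) => (false = true → p w v)) =
        fun _ _ => True := by
      funext w v
      exact propext ⟨fun _ => trivial, fun _ h => absurd h (by decide)⟩
    rw [e]
    exact e_true
  | true =>
    have e : (fun (w : List (Fin 5)) (v : ℕ → ℕ) => (true = true → p w v)) =
        fun w v => p w v := by
      funext w v
      exact propext ⟨fun h => h rfl, fun h _ => h⟩
    rw [e]
    exact hp

private theorem e_nV : E2 (α := Fin 5) (fun w _ => nV w) :=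
  e_bmin (p := fun w i _ => lett w i = cd (4 : Fin 5) + 1) (H := fun w _ => w.length)
    (e_eq (e_lett (e_get 0)) (e_con _)) e_len

private theorem e_q2 : E2 (α := Fin 5) (fun w _ => q2 w) :=
  e_bmin (p := fun w i _ => nV w < i ∧ lett w i = cd (4 : Fin 5) + 1)
    (H := fun w _ => w.length)
    (e_and (e_lt e_nV (e_get 0)) (e_eq (e_lett (e_get 0)) (e_con _))) e_len

private theorem e_q3 : E2 (α := Fin 5) (fun w _ => q3 w) :=
  e_bmin (p := fun w i _ => q2 w < i ∧ lett w i = cd (4 : Fin 5) + 1)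
    (H := fun w _ => w.length)
    (e_and (e_lt e_q2 (e_get 0)) (e_eq (e_lett (e_get 0)) (e_con _))) e_len

private theorem e_q4 : E2 (α := Fin 5) (fun w _ => q4 w) :=
  e_bmin (p := fun w i _ => q3 w < i ∧ lett w i = cd (4 : Fin 5) + 1)
    (H := fun w _ => w.length)
    (e_and (e_lt e_q3 (e_get 0)) (e_eq (e_lett (e_get 0)) (e_con _))) e_len

private theorem e_mV : E2 (α := Fin 5) (fun w _ => mV w) :=
  e_sub (e_sub e_q3 e_q2) (e_con 1)

private theorem e_kbV : E2 (α := Fin 5) (fun w _ => kbV w) :=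
  e_sub (e_sub e_q4 e_q3) (e_con 1)

private theorem e_kwV : E2 (α := Fin 5) (fun w _ => kwV w) :=
  e_sub (e_sub e_len e_q4) (e_con 1)

private theorem e_nn : E2 (α := Fin 5) (fun w _ => nV w * nV w) := e_mul e_nV e_nV

private theorem e_R0 : E2 (α := Fin 5) (fun w _ => R0 w) :=
  e_mul (e_add e_mV (e_con 1))
    (e_add (e_mul (e_con 2) (e_powc (e_add e_nn (e_con 1)) 2)) (e_con 1))

private theorem e_BB : E2 (α := Fin 5) (fun w _ => BB w) :=
  e_mul (e_add (e_mul (e_con 2) e_R0) (e_con 1)) e_nn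

private theorem e_MM : E2 (α := Fin 5) (fun w _ => MM w) :=
  e_add (e_mul (e_con 2) e_BB) (e_con 1)

private theorem e_bpV {J P : VF (Fin 5)} (hJ : E2 J) (hP : E2 P) :
    E2 (fun w v => bpV w (J w v) (P w v)) :=
  e_add (e_add (e_add e_nV (e_con 1)) (e_mul hJ (e_add e_nn (e_con 1)))) hP

private theorem e_cntV {J P : VF (Fin 5)} (hJ : E2 J) (hP : E2 P) :
    E2 (fun w v => cntV w (J w v) (P w v)) :=
  e_ite' (p := fun w v => lett w (bpV w (J w v) (P w v)) = cd (1 : Fin 5) + 1)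
    (e_eq (e_lett (e_bpV hJ hP)) (e_con _)) (e_con 1)
    (e_ite' (p := fun w v => lett w (bpV w (J w v) (P w v)) = cd (2 : Fin 5) + 1)
      (e_eq (e_lett (e_bpV hJ hP)) (e_con _)) (e_con 2) (e_con 0))

private theorem e_sdV {J : VF (Fin 5)} (hJ : E2 J) : E2 (fun w v => sdV w (J w v)) :=
  e_ite' (p := fun w v => lett w (bpV w (J w v) (nV w * nV w)) = cd (1 : Fin 5) + 1)
    (e_eq (e_lett (e_bpV hJ e_nn)) (e_con _)) (e_con 1) (e_con 0)

private theorem e_PP {N : VF (Fin 5)} (hN : E2 N) : E2 (fun w v => PP (N w v) w) :=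
  e_pw hN (e_con 3) e_nn

private theorem e_TT {N : VF (Fin 5)} (hN : E2 N) : E2 (fun w v => TT (N w v) w) :=
  e_mul (e_PP hN) e_MM

private theorem e_b0V {N : VF (Fin 5)} (hN : E2 N) : E2 (fun w v => b0V (N w v) w) :=
  e_add (e_sum (T := fun w i v => cntV w 0 i * pw (N w v) 3 i) (H := fun w _ => nV w * nV w)
    (e_mul (e_cntV (e_con 0) (e_get 0)) (e_pw (e_sh hN) (e_con 3) (e_get 0))) e_nn)
    (e_mul (e_PP hN) e_BB)

private theorem e_HV (sk : Bool) {N S U : VF (Fin 5)} (hN : E2 N) (hS : E2 S) (hU : E2 U) :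
    E2P (fun w v => HV sk (N w v) w (S w v) (U w v)) := by
  have h1 : E2P (α := Fin 5) (fun w v => ∀ p < nV w * nV w,
      dg 3 (U w (fun i => v (i + 1)) % PP (N w (fun i => v (i + 1))) w) p = cntV w (v 0) p) :=
    e_all (p := fun w q v =>
        dg 3 (U w (fun i => v (i + 1)) % PP (N w (fun i => v (i + 1))) w) q = cntV w (v 0) q)
      (H := fun w _ => nV w * nV w)
      (e_eq (e_dg (e_con 3) (e_mod (e_sh (e_sh hU)) (e_PP (e_sh (e_sh hN)))) (e_get 0))
        (e_cntV (e_get 1) (e_get 0))) e_nn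
  have h2 : E2P (α := Fin 5) (fun w v => sk = true → sdV w (v 0) = S w (fun i => v (i + 1))) :=
    e_cimp sk (e_eq (e_sdV (e_get 0)) (e_sh hS))
  exact e_and (e_lt hU (e_TT hN))
    (e_ex (p := fun w j v => 1 ≤ j ∧ nV w + 1 + (j + 1) * (nV w * nV w + 1) ≤ q2 w ∧
      (sk = true → sdV w j = S w v) ∧
      ∀ p < nV w * nV w, dg 3 (U w v % PP (N w v) w) p = cntV w j p) (H := fun w _ => w.length)
    (e_and (e_le (e_con 1) (e_get 0)) (e_and
      (e_le (e_add (e_add e_nV (e_con 1)) (e_mul (e_add (e_get 0) (e_con 1))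
        (e_add e_nn (e_con 1)))) e_q2)
      (e_and h2 h1))) e_len)

theorem hEVW : StEVW :=
  ⟨e_nV, e_q2, e_mV, e_kbV, e_kwV, e_R0, e_BB, e_MM, e_sdV (e_con 0),
    fun _ hN => ⟨e_PP hN, e_TT hN, e_b0V hN⟩,
    fun sk _ _ _ hN hS hU => e_HV sk hN hS hU⟩

end Pool.Agent.Helper94.GT
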